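import Pool.Agent.Helper98.DISC.GoalsD

/-!
# Project DISC, module D: packet UN2
-/

open MeasureTheory Set Filter Topology
open scoped ENNReal

namespace Pool.Agent.Helper70.DISC

open Pool.Agent.Helper98.DISC

theorem continuous_cr {X : Type} [TopologicalSpace X] {f g h : X → ℂ} (hf : Continuous f)
    (hg : Continuous g) (hh : Continuous h) : Continuous fun x => cr (f x) (g x) (h x) := by
  unfold cr
  have hfr := Complex.continuous_re.comp hf
  have hfi := Complex.continuous_im.comp hf
  have hgr := Complex.continuous_re.comp hg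
  have hgi := Complex.continuous_im.comp hg
  have hhr := Complex.continuous_re.comp hh
  have hhi := Complex.continuous_im.comp hh
  simp only [Function.comp_def] at *
  exact ((hgr.sub hfr).mul (hhi.sub hfi)).sub ((hgi.sub hfi).mul (hhr.sub hfr))

theorem continuous_dtn {X : Type} [TopologicalSpace X] {f g : X → ℂ} (hf : Continuous f)
    (hg : Continuous g) : Continuous fun x => dtn (f x) (g x) := by
  unfold dtn
  have h1 : Continuous fun x => ((1 : ℂ) - f x).re :=
    Complex.continuous_re.comp (continuous_const.sub hf)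
  have h2 : Continuous fun x => ((1 : ℂ) - g x).re :=
    Complex.continuous_re.comp (continuous_const.sub hg)
  exact (((continuous_const.sub hg).norm.pow 2).mul h1).sub
    (((continuous_const.sub hf).norm.pow 2).mul h2)

theorem measurableSet_TS (ι : Type) [Fintype ι] [LinearOrder ι] : MeasurableSet (TS ι) := by
  have h : TS ι = {z : ι → ℂ | ∀ i j, i < j → 0 < cr 1 (z i) (z j)} ∩
      ({z : ι → ℂ | ∀ i j k, i < j → j < k → 0 < cr (z i) (z j) (z k)} ∩
      {z : ι → ℂ | ∀ i, ‖z i‖ < 1}) := by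
    ext z
    constructor
    · rintro ⟨⟨h1, h2⟩, h3⟩
      exact ⟨h1, h2, h3⟩
    · rintro ⟨h1, h2, h3⟩
      exact ⟨⟨h1, h2⟩, h3⟩
  rw [h]
  refine MeasurableSet.inter ?_ (MeasurableSet.inter ?_ ?_)
  · simp only [Set.ofPred_forall]
    refine MeasurableSet.iInter fun i => MeasurableSet.iInter fun j => MeasurableSet.iInter fun _ =>
      (isOpen_lt continuous_const
        (continuous_cr continuous_const (continuous_apply i) (continuous_apply j))).measurableSet
  · simp only [Set.ofPred_forall]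
    refine MeasurableSet.iInter fun i => MeasurableSet.iInter fun j => MeasurableSet.iInter fun k =>
      MeasurableSet.iInter fun _ => MeasurableSet.iInter fun _ =>
      (isOpen_lt continuous_const
        (continuous_cr (continuous_apply i) (continuous_apply j) (continuous_apply k))).measurableSet
  · simp only [Set.ofPred_forall]
    exact MeasurableSet.iInter fun i =>
      (isOpen_lt (continuous_apply i).norm continuous_const).measurableSet

theorem re_pos_of_norm_lt {w : ℂ} (hw : ‖w‖ < 1) : 0 < (1 - w).re := by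
  have h := Complex.re_le_norm w
  simp only [Complex.sub_re, Complex.one_re]
  linarith

theorem dtn_antisymm (w z : ℂ) : dtn w z = -dtn z w := by
  unfold dtn
  ring

theorem dtn_eq (w t : ℂ) (hw : 0 < (1 - w).re) :
    dtn w t = (1 - w).re *
      (‖t - (1 - ((‖1 - w‖ ^ 2 / (2 * (1 - w).re) : ℝ) : ℂ))‖ ^ 2 -
        (‖1 - w‖ ^ 2 / (2 * (1 - w).re)) ^ 2) := by
  set R : ℝ := ‖1 - w‖ ^ 2 / (2 * (1 - w).re) with hR
  have hR' : ‖1 - w‖ ^ 2 = R * (2 * (1 - w).re) := by
    rw [hR]
    field_simp
  have h1 : ‖t - (1 - (R : ℂ))‖ ^ 2 = ‖1 - t‖ ^ 2 - 2 * R * (1 - t).re + R ^ 2 := by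
    rw [Complex.sq_norm, Complex.sq_norm, Complex.normSq_apply, Complex.normSq_apply]
    simp only [Complex.sub_re, Complex.sub_im, Complex.one_re, Complex.one_im, Complex.ofReal_re,
      Complex.ofReal_im]
    ring
  unfold dtn
  rw [h1, hR']
  ring

theorem null_slice (w : ℂ) (hw : ‖w‖ < 1) : volume {t : ℂ | dtn w t = 0} = 0 := by
  have hre := re_pos_of_norm_lt hw
  refine measure_mono_null ?_ (Measure.addHaar_sphere volume
    (1 - ((‖1 - w‖ ^ 2 / (2 * (1 - w).re) : ℝ) : ℂ)) (‖1 - w‖ ^ 2 / (2 * (1 - w).re)))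
  intro t ht
  have ht' : dtn w t = 0 := ht
  rw [dtn_eq w t hre] at ht'
  have h1 : ‖t - (1 - ((‖1 - w‖ ^ 2 / (2 * (1 - w).re) : ℝ) : ℂ))‖ ^ 2 =
      (‖1 - w‖ ^ 2 / (2 * (1 - w).re)) ^ 2 := by
    rcases mul_eq_zero.mp ht' with h | h
    · exact absurd h hre.ne'
    · linarith
  rw [mem_sphere_iff_norm]
  exact (pow_left_inj₀ (norm_nonneg _) (by positivity) two_ne_zero).mp h1

/-- UN2 -/
theorem un2 (hNUL : S_NUL) : S_UN2 := by
  intro ι _ _ _
  classical
  set A : ι → Set (ι → ℂ) := fun j => {z | z ∈ TS ι ∧ ∀ i, i ≠ j → dtn (z j) (z i) < 0} with hA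
  have hAm : ∀ j, MeasurableSet (A j) := by
    intro j
    have h : A j = TS ι ∩ {z : ι → ℂ | ∀ i, i ≠ j → dtn (z j) (z i) < 0} := rfl
    rw [h]
    refine (measurableSet_TS ι).inter ?_
    simp only [Set.ofPred_forall]
    exact MeasurableSet.iInter fun i => MeasurableSet.iInter fun _ =>
      (isOpen_lt (continuous_dtn (continuous_apply j) (continuous_apply i))
        continuous_const).measurableSet
  have hdisj : Pairwise (Function.onFun Disjoint A) := by
    intro i j hij
    refine Set.disjoint_left.mpr ?_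
    intro z hz1 hz2
    have h1 : dtn (z i) (z j) < 0 := hz1.2 j hij.symm
    have h2 : dtn (z j) (z i) < 0 := hz2.2 i hij
    rw [dtn_antisymm] at h2
    linarith
  -- the null sets
  have hN : ∀ i j : ι, i ≠ j → volume {z : ι → ℂ | ‖z j‖ < 1 ∧ dtn (z j) (z i) = 0} = 0 := by
    intro i j hij
    refine hNUL ι i _ ?_ ?_
    · have h : {z : ι → ℂ | ‖z j‖ < 1 ∧ dtn (z j) (z i) = 0} =
          {z : ι → ℂ | ‖z j‖ < 1} ∩ {z : ι → ℂ | dtn (z j) (z i) = 0} := rfl
      rw [h]
      exact (isOpen_lt (continuous_apply j).norm continuous_const).measurableSet.inter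
        (isClosed_eq (continuous_dtn (continuous_apply j) (continuous_apply i))
          continuous_const).measurableSet
    · intro z
      by_cases hz : ‖z j‖ < 1
      · refine measure_mono_null ?_ (null_slice (z j) hz)
        intro t ht
        have ht2 := ht.2
        rw [Function.update_self, Function.update_of_ne hij.symm] at ht2
        exact ht2
      · have h : {t : ℂ | Function.update z i t ∈
            {z : ι → ℂ | ‖z j‖ < 1 ∧ dtn (z j) (z i) = 0}} = ∅ := by
          refine Set.eq_empty_of_forall_notMem ?_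
          intro t ht
          have ht1 := ht.1
          rw [Function.update_of_ne hij.symm] at ht1
          exact hz ht1
        rw [h, measure_empty]
  have hcover : TS ι ⊆ (⋃ j, A j) ∪ ⋃ i, ⋃ j, ⋃ (_ : i ≠ j),
      {z : ι → ℂ | ‖z j‖ < 1 ∧ dtn (z j) (z i) = 0} := by
    intro z hz
    have hre : ∀ i, 0 < (1 - z i).re := fun i => re_pos_of_norm_lt (hz.2 i)
    obtain ⟨j, hj⟩ := Finite.exists_max (fun i => ‖1 - z i‖ ^ 2 / (1 - z i).re)
    have hle : ∀ i, dtn (z j) (z i) ≤ 0 := by
      intro i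
      have h := hj i
      rw [div_le_div_iff₀ (hre i) (hre j)] at h
      unfold dtn
      linarith
    by_cases hall : ∀ i, i ≠ j → dtn (z j) (z i) < 0
    · exact Or.inl (Set.mem_iUnion.mpr ⟨j, hz, hall⟩)
    · push Not at hall
      obtain ⟨i, hij, hi⟩ := hall
      refine Or.inr ?_
      simp only [Set.mem_iUnion]
      exact ⟨i, j, hij, hz.2 j, le_antisymm (hle i) hi⟩
  have hnull : volume (⋃ i, ⋃ j, ⋃ (_ : i ≠ j),
      {z : ι → ℂ | ‖z j‖ < 1 ∧ dtn (z j) (z i) = 0}) = 0 := by
    simp only [measure_iUnion_null_iff]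
    intro i j hij
    exact hN i j hij
  have h1 : volume (TS ι) = volume (⋃ j, A j) := by
    refine le_antisymm ?_ (measure_mono ?_)
    · calc volume (TS ι) ≤ volume ((⋃ j, A j) ∪ ⋃ i, ⋃ j, ⋃ (_ : i ≠ j),
          {z : ι → ℂ | ‖z j‖ < 1 ∧ dtn (z j) (z i) = 0}) := measure_mono hcover
        _ ≤ volume (⋃ j, A j) + volume (⋃ i, ⋃ j, ⋃ (_ : i ≠ j),
          {z : ι → ℂ | ‖z j‖ < 1 ∧ dtn (z j) (z i) = 0}) := measure_union_le _ _
        _ = volume (⋃ j, A j) := by rw [hnull, add_zero]
    · exact Set.iUnion_subset fun j z hz => hz.1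
  rw [h1, measure_iUnion hdisj hAm, tsum_fintype]

end Pool.Agent.Helper70.DISC
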